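import Pool.Agent.helper62.DP8.Spec

set_option autoImplicit false

namespace Pool.Agent.helper62.DP8

theorem ORS_ors (hl : ∀ a b i, tb (Nat.lor a b) i = (tb a i || tb b i)) (h0 : ∀ i, tb 0 i = false) (m : ℕ) (f : ℕ → ℕ) (k i : ℕ) :
    tb (orS m f k) i = true ↔ ∃ w < k, tb m w = true ∧ tb (f w) i = true := by
  induction k with
  | zero =>
    constructor
    · intro h
      have h1 : tb 0 i = true := h
      rw [h0] at h1
      exact absurd h1 (by decide)
    · rintro ⟨w, hw, _⟩
      exact absurd hw (Nat.not_lt_zero _)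
  | succ k ih =>
    have e : orS m f (k + 1) = bif tb m k then Nat.lor (f k) (orS m f k) else orS m f k := rfl
    rw [e]
    cases hk : tb m k with
    | false =>
      rw [cond_false, ih]
      constructor
      · rintro ⟨w, hw, h1, h2⟩
        exact ⟨w, Nat.lt_succ_of_lt hw, h1, h2⟩
      · rintro ⟨w, hw, h1, h2⟩
        rcases Nat.lt_succ_iff_lt_or_eq.1 hw with h3 | h3
        · exact ⟨w, h3, h1, h2⟩
        · rw [h3, hk] at h1
          exact absurd h1 (by decide)
    | true =>
      rw [cond_true, hl, Bool.or_eq_true, ih]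
      constructor
      · rintro (h | ⟨w, hw, h1, h2⟩)
        · exact ⟨k, Nat.lt_succ_self k, hk, h⟩
        · exact ⟨w, Nat.lt_succ_of_lt hw, h1, h2⟩
      · rintro ⟨w, hw, h1, h2⟩
        rcases Nat.lt_succ_iff_lt_or_eq.1 hw with h3 | h3
        · exact Or.inr ⟨w, h3, h1, h2⟩
        · rw [h3] at h2
          exact Or.inl h2

theorem ORS_cnt (m k : ℕ) : cnt m k = ((Finset.range k).filter (fun i => tb m i = true)).card := by
  induction k with
  | zero => rfl
  | succ k ih =>
    have e : cnt m (k + 1) = bif tb m k then cnt m k + 1 else cnt m k := rfl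
    rw [e, Finset.range_add_one, Finset.filter_insert]
    cases hk : tb m k with
    | false =>
      rw [cond_false, if_neg (by decide), ih]
    | true =>
      rw [cond_true, if_pos rfl, Finset.card_insert_of_notMem, ih]
      intro h
      exact absurd (Finset.mem_range.1 (Finset.mem_filter.1 h).1) (lt_irrefl _)

theorem ORS_sum (m D k : ℕ) : sumS m D k = ∑ x ∈ (Finset.range k).filter (fun i => tb m i = true), ent D x := by
  induction k with
  | zero => rfl
  | succ k ih =>
    have e : sumS m D (k + 1) = bif tb m k then ent D k + sumS m D k else sumS m D k := rfl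
    rw [e, Finset.range_add_one, Finset.filter_insert]
    cases hk : tb m k with
    | false =>
      rw [cond_false, if_neg (by decide), ih]
    | true =>
      rw [cond_true, if_pos rfl, Finset.sum_insert, ih]
      intro h
      exact absurd (Finset.mem_range.1 (Finset.mem_filter.1 h).1) (lt_irrefl _)

theorem ORS_low (hl : ∀ a b i, tb (Nat.lor a b) i = (tb a i || tb b i)) (hs : ∀ k i, tb (Nat.shiftLeft 1 k) i = decide (i = k))
    (h0 : ∀ i, tb 0 i = false) (D k x : ℕ) : tb (low D k) x = true ↔ x < k ∧ ent D x ≤ 2 := by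
  induction k with
  | zero =>
    constructor
    · intro h
      have h1 : tb 0 x = true := h
      rw [h0] at h1
      exact absurd h1 (by decide)
    · rintro ⟨hw, _⟩
      exact absurd hw (Nat.not_lt_zero _)
  | succ k ih =>
    have e : low D (k + 1) = bif Nat.ble (ent D k) 2 then Nat.lor (Nat.shiftLeft 1 k) (low D k) else low D k := rfl
    rw [e]
    cases hk : Nat.ble (ent D k) 2 with
    | false =>
      rw [cond_false, ih]
      constructor
      · rintro ⟨h1, h2⟩
        exact ⟨Nat.lt_succ_of_lt h1, h2⟩
      · rintro ⟨h1, h2⟩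
        rcases Nat.lt_succ_iff_lt_or_eq.1 h1 with h3 | h3
        · exact ⟨h3, h2⟩
        · rw [h3] at h2
          rw [Nat.ble_eq_true_of_le h2] at hk
          exact absurd hk (by decide)
    | true =>
      rw [cond_true, hl, Bool.or_eq_true, ih, hs]
      constructor
      · rintro (h | ⟨h1, h2⟩)
        · have h3 := of_decide_eq_true h
          rw [h3]
          exact ⟨Nat.lt_succ_self k, Nat.le_of_ble_eq_true hk⟩
        · exact ⟨Nat.lt_succ_of_lt h1, h2⟩
      · rintro ⟨h1, h2⟩
        rcases Nat.lt_succ_iff_lt_or_eq.1 h1 with h3 | h3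
        · exact Or.inr ⟨h3, h2⟩
        · exact Or.inl (decide_eq_true h3)

theorem ORS_allN (p : ℕ → Bool) (k : ℕ) : allN p k = true ↔ ∀ x < k, p x = true := by
  induction k with
  | zero =>
    constructor
    · intro _ x hx
      exact absurd hx (Nat.not_lt_zero _)
    · intro _
      rfl
  | succ k ih =>
    have e : allN p (k + 1) = (p k && allN p k) := rfl
    rw [e, Bool.and_eq_true, ih]
    constructor
    · rintro ⟨h1, h2⟩ x hx
      rcases Nat.lt_succ_iff_lt_or_eq.1 hx with h3 | h3
      · exact h2 x h3
      · rw [h3]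
        exact h1
    · intro h
      exact ⟨h k (Nat.lt_succ_self k), fun x hx => h x (Nat.lt_succ_of_lt hx)⟩

theorem ORS_allS (S : ℕ) (p : ℕ → Bool) (k : ℕ) : allS S p k = true ↔ ∀ x < k, tb S x = true → p x = true := by
  induction k with
  | zero =>
    constructor
    · intro _ x hx
      exact absurd hx (Nat.not_lt_zero _)
    · intro _
      rfl
  | succ k ih =>
    have e : allS S p (k + 1) = ((!(tb S k) || p k) && allS S p k) := rfl
    rw [e, Bool.and_eq_true, ih]
    constructor
    · rintro ⟨h1, h2⟩ x hx h4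
      rcases Nat.lt_succ_iff_lt_or_eq.1 hx with h3 | h3
      · exact h2 x h3 h4
      · rw [h3] at h4 ⊢
        rw [h4] at h1
        exact h1
    · intro h
      refine ⟨?_, fun x hx => h x (Nat.lt_succ_of_lt hx)⟩
      cases hk : tb S k with
      | false => rfl
      | true =>
        rw [h k (Nat.lt_succ_self k) hk]
        rfl

theorem ORS (hBIT : BIT_stmt) : ORS_stmt := by
  obtain ⟨_, hl, _, _, hs, h0, _⟩ := hBIT
  exact ⟨ORS_ors hl h0, ORS_cnt, ORS_low hl hs h0, ORS_allS, ORS_allN, ORS_sum⟩

end Pool.Agent.helper62.DP8
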