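import Pool.Agent.helper62.DP8.Spec

set_option autoImplicit false

namespace Pool.Agent.helper62.DP8

theorem TDD (hORS : ORS_stmt) (hTAB : TAB_stmt) (hWTB : WTB_stmt) (hTRR : TRR_stmt) : TDD_stmt := by
  intro V G g s v hC hR
  obtain ⟨_, hcnt, hlow, _⟩ := hORS
  obtain ⟨_, htab, _⟩ := hTAB
  obtain ⟨_, hD, hD2, _⟩ := hWTB.2.1 g s
  obtain ⟨_, hE⟩ := hTRR V G g s v hR
  have h1 : ∀ x < s.n, ent (tbl g s).D x =
      ((Finset.range s.n).filter (fun y => tb (ent (tbl g s).R x) y = true)).card := by
    intro x hx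
    have hle : cnt (ent (tbl g s).R x) s.n ≤ s.n := by
      rw [hcnt]
      calc ((Finset.range s.n).filter (fun y => tb (ent (tbl g s).R x) y = true)).card
          ≤ (Finset.range s.n).card := Finset.card_filter_le _ _
        _ = s.n := Finset.card_range _
    have hn := hR.n32
    have hlt : cnt (ent (tbl g s).R x) s.n < 4294967296 := by omega
    rw [hD, htab, if_pos hx]
    rw [Nat.mod_eq_of_lt hlt, hcnt]
  refine ⟨h1, ?_, ?_⟩
  · intro x
    rw [hD2]
    exact hlow _ _ _
  · intro x hx
    classical
    have h3 : (G.neighborSet (v x)).ncard = 3 := hC (v x)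
    have hfin : (G.neighborSet (v x)).Finite := by
      apply Set.finite_of_ncard_ne_zero
      rw [h3]
      decide
    set S : Finset V := hfin.toFinset with hS
    have hScard : S.card = 3 := by
      rw [hS, ← Set.ncard_eq_toFinset_card _ hfin]
      exact h3
    set F : Finset ℕ := (Finset.range s.n).filter (fun y => tb (ent (tbl g s).R x) y = true) with hF
    set I : Finset V := F.image v with hI
    have hFm : ∀ y ∈ F, y < s.n ∧ tb (ent (tbl g s).R x) y = true := by
      intro y hy
      have h4 := Finset.mem_filter.1 hy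
      exact ⟨Finset.mem_range.1 h4.1, h4.2⟩
    have hIcard : I.card = F.card := by
      rw [hI]
      apply Finset.card_image_of_injOn
      intro a ha b hb hab
      exact hR.inj a (hFm a ha).1 b (hFm b hb).1 hab
    have hIS : I ⊆ S := by
      intro z hz
      rw [hI] at hz
      obtain ⟨y, hy, rfl⟩ := Finset.mem_image.1 hz
      rw [hS, Set.Finite.mem_toFinset]
      exact (hE x y (hFm y hy).2).2.2.2.1
    refine ⟨S \ I, ?_, ?_⟩
    · rw [h1 x hx, ← hIcard, Finset.card_sdiff_of_subset hIS, hScard]
      have h5 := Finset.card_le_card hIS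
      rw [hScard] at h5
      omega
    · intro z
      rw [Finset.mem_sdiff, hS, Set.Finite.mem_toFinset]
      constructor
      · rintro ⟨h6, h7⟩
        refine ⟨h6, fun y hy hzy => h7 ?_⟩
        rw [hI]
        apply Finset.mem_image.2
        refine ⟨y, ?_, hzy.symm⟩
        rw [hF]
        exact Finset.mem_filter.2 ⟨Finset.mem_range.2 (hE x y hy).2.1, hy⟩
      · rintro ⟨h6, h7⟩
        refine ⟨h6, fun h8 => ?_⟩
        rw [hI] at h8
        obtain ⟨y, hy, hyz⟩ := Finset.mem_image.1 h8
        exact h7 y (hFm y hy).2 hyz.symm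

end Pool.Agent.helper62.DP8
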